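import Pool.Agent.Lib.MP_c497bd_nt.Pow
import Pool.Agent.Lib.MP_c497bd_nt.Count

/-!
# Lengths of logarithms induced by residue classes

A logarithm of length `k` is a bijection `f` from `{1, …, k}` onto `ZMod k` such that
`f (a * b) = f a + f b` whenever `a * b ≤ k`.  In the known infinite families of lengths there is a
modulus `M` (`k + 1`, `2 * k + 1` or `p ^ 2`) and a homomorphism `G` from `(ZMod M)ˣ` to `ZMod k` with
`f p = G p` for all primes `p ≤ k` prime to `M`.  We show that the lengths of the logarithms which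
agree in this way with a homomorphism `G` of modulus `M ≤ k ^ (3 / 2 - ε)` at all but `k ^ c` of the
primes up to `k ^ (1 - c)` have density zero.  Moreover `f` need not be a bijection: it is enough
that it has at least `k - k ^ c` values.
-/

namespace Pool.Agent.Results.MP_c497bd_nt.InducedSparse

open Filter Topology

/-- A logarithmic function of length `k`. -/
def IsLogarithmic (k : ℕ) (f : ℕ → ZMod k) : Prop :=
  ∀ a b : ℕ, 1 ≤ a → 1 ≤ b → a * b ≤ k → f (a * b) = f a + f b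

/-- The number of the values of `f` on `{1, …, k}` (it is `k` for a logarithm). -/
noncomputable def values (k : ℕ) (f : ℕ → ZMod k) : ℕ := (f '' Set.Icc 1 k).ncard

/-- The primes `p ≤ x` not dividing `M` with `f p ≠ G p`. -/
def Exceptional (k : ℕ) (f : ℕ → ZMod k) (M : ℕ) (G : (ZMod M)ˣ →* Multiplicative (ZMod k))
    (x : ℝ) : Set ℕ :=
  {p : ℕ | p.Prime ∧ (p : ℝ) ≤ x ∧ ∃ h : p.Coprime M,
    f p ≠ Multiplicative.toAdd (G (ZMod.unitOfCoprime p h))}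

/-- There are a logarithmic function `f` of length `k` with at least `k - k ^ c` values, a modulus
`M ≤ k ^ (3 / 2 - ε)` and a homomorphism `G : (ZMod M)ˣ → ZMod k` such that at most `k ^ c` primes
`p ≤ x` not dividing `M` have `f p ≠ G p`. -/
def Induced (ε c : ℝ) (k : ℕ) (x : ℝ) : Prop :=
  ∃ f : ℕ → ZMod k, IsLogarithmic k f ∧ (k : ℝ) - (k : ℝ) ^ c ≤ values k f ∧
    ∃ M : ℕ, 1 ≤ M ∧ (M : ℝ) ≤ (k : ℝ) ^ ((3 : ℝ) / 2 - ε) ∧
      ∃ G : (ZMod M)ˣ →* Multiplicative (ZMod k),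
        ((Exceptional k f M G x).ncard : ℝ) ≤ (k : ℝ) ^ c

theorem result : ∀ ε : ℝ, 0 < ε → ∃ c : ℝ, 0 < c ∧ c < 1 ∧
    Tendsto (fun N : ℕ => (({k : ℕ | Induced ε c k ((k : ℝ) ^ (1 - c))} ∩ Set.Icc 1 N).ncard : ℝ)
      / N) atTop (𝓝 0) ∧
    (∃ k₀ : ℕ, ∀ (k : ℕ) (x : ℝ), k₀ ≤ k → (k : ℝ) ^ (1 - c) ≤ x → x ≤ k → Induced ε c k x →
      ∃ i n : ℕ, 1 ≤ i ∧ i * x ≤ 96 * k ∧ 1 ≤ n ∧ n.primeFactors.card ≤ 2 ∧
        2 * k = i * Nat.totient n) ∧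
    ∃ C : ℝ, ∀ N : ℕ, 16 ≤ N → (({k : ℕ | Induced ε c k k} ∩ Set.Icc 1 N).ncard : ℝ) ≤
      C * (N * Real.log (Real.log N) / Real.log N) := by
  intro ε hε
  obtain ⟨c, hc, hc2, k₀, h⟩ := Pool.Agent.C497.key ε hε
  have hpow : ∀ k : ℕ, 1 ≤ k → (k : ℝ) ^ (1 - c) ≤ k := by
    intro k hk
    have hk1 : (1 : ℝ) ≤ k := by exact_mod_cast hk
    calc (k : ℝ) ^ (1 - c) ≤ (k : ℝ) ^ (1 : ℝ) :=
          Real.rpow_le_rpow_of_exponent_le hk1 (by linarith)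
      _ = k := Real.rpow_one _
  have hval : ∀ (k : ℕ) (f : ℕ → ZMod k), (k : ℝ) - (k : ℝ) ^ c ≤ values k f →
      (k : ℝ) - ((f '' Set.Icc 1 k).ncard : ℝ) ≤ (k : ℝ) ^ c := by
    intro k f hf
    unfold values at hf
    linarith
  refine ⟨c, hc, by linarith, ?_, ⟨k₀, ?_⟩, ?_⟩
  · have hset : ∀ N : ℕ, {k : ℕ | Induced ε c k ((k : ℝ) ^ (1 - c))} ∩ Set.Icc 1 N =
        {k : ℕ | 1 ≤ k ∧ Induced ε c k ((k : ℝ) ^ (1 - c))} ∩ Set.Icc 1 N := by
      intro N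
      ext k
      constructor
      · rintro ⟨h1, h2⟩
        exact ⟨⟨h2.1, h1⟩, h2⟩
      · rintro ⟨h1, h2⟩
        exact ⟨h1.2, h2⟩
    have hd := Pool.Agent.C497.density_primePow
      {k : ℕ | 1 ≤ k ∧ Induced ε c k ((k : ℝ) ^ (1 - c))} k₀ ?_
    · refine hd.congr fun N => ?_
      rw [hset N]
    · rintro k ⟨hk1, f, hf, hfv, M, hM, hMk, G, hG⟩ hk
      obtain ⟨hb, hsq, -, i, n, hi, hix, hn1, hn, hkn⟩ := h k ((k : ℝ) ^ (1 - c)) hk le_rfl
        (hpow k hk1) f M G hf (hval k f hfv) hM hMk hG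
      exact Pool.Agent.C497.big_of_structure hb hsq hi hix hn1 hn hkn
  · intro k x hk hx hxk hI
    obtain ⟨f, hf, hfv, M, hM, hMk, G, hG⟩ := hI
    obtain ⟨hb, hsq, hx2, i, n, hi, hix, hn1, hn, hkn⟩ := h k x hk hx hxk f M G hf
      (hval k f hfv) hM hMk hG
    refine ⟨i, n, hi, ?_, hn1, hn, hkn⟩
    have h1 : ((i * ⌊x⌋₊ : ℕ) : ℝ) ≤ ((48 * k : ℕ) : ℝ) := by exact_mod_cast hix
    push_cast at h1
    have h2 : (i : ℝ) * x ≤ i * (2 * ⌊x⌋₊) := mul_le_mul_of_nonneg_left hx2 (by positivity)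
    linarith
  · obtain ⟨C, hC⟩ := Pool.Agent.C497.count_bound {k : ℕ | 1 ≤ k ∧ Induced ε c k k} k₀ (by
      rintro k ⟨hk1, f, hf, hfv, M, hM, hMk, G, hG⟩ hk
      obtain ⟨hb, hsq, -, i, n, hi, hix, hn1, hn, hkn⟩ := h k k hk (hpow k hk1) le_rfl f M G hf
        (hval k f hfv) hM hMk hG
      rw [Nat.floor_natCast] at hix
      exact ⟨i, n, hi, Nat.le_of_mul_le_mul_right hix hk1, hn1, hn, hkn⟩)
    refine ⟨C, fun N hN => ?_⟩
    have hset : {k : ℕ | Induced ε c k k} ∩ Set.Icc 1 N =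
        {k : ℕ | 1 ≤ k ∧ Induced ε c k k} ∩ Set.Icc 1 N := by
      ext k
      constructor
      · rintro ⟨h1, h2⟩
        exact ⟨⟨h2.1, h1⟩, h2⟩
      · rintro ⟨h1, h2⟩
        exact ⟨h1.2, h2⟩
    rw [hset]
    exact hC N hN

end Pool.Agent.Results.MP_c497bd_nt.InducedSparse
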